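import Mathlib

set_option autoImplicit false

/-! # Bias of consecutive twin pairs modulo four: statements -/

namespace Pool.Agent.N893.TB

open Filter Finset
open scoped Topology

/-- `h 0 = -1/2`, `h (k + 1) = - h k + T k (h k + 1/2)` -/
noncomputable def hh (T : ℕ → ℝ) : ℕ → ℝ
  | 0 => -(1 / 2)
  | k + 1 => -hh T k + T k * (hh T k + 1 / 2)

/-- BETA -/
def tBETA : Prop := ∀ (J : ℕ) (a : ℕ → ℝ), Odd J → (∀ k, a (k + J) = a k) →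
  ∃ (β : ℕ → ℝ) (M : ℝ), (∀ k, β (k + J) = β k) ∧ (∀ k, β k + β (k + 1) = a k) ∧ (∀ k, |β k| ≤ M) ∧
    ((∀ k, a k = 0 ∨ a k = 1) → ∑ k ∈ range J, a k * β (k + 1) = (∑ k ∈ range J, a k) / 2)

/-- PER -/
def tPER : Prop := ∀ (J : ℕ) (c g : ℕ → ℝ), 1 ≤ J → (∀ k, c (k + J) = c k) → (∀ k, g (k + 1) ≤ g k) →
  (∀ k, 0 ≤ g k) →
  ∃ C : ℝ, ∀ K : ℕ, |∑ k ∈ range K, g k * c k - (∑ k ∈ range J, c k) / J * ∑ k ∈ range K, g k| ≤ C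

/-- SUMLOG -/
def tSUMLOG : Prop := ∀ (g : ℕ → ℝ) (c : ℝ) (s : ℕ),
  Tendsto (fun k : ℕ => g k * Real.log k) atTop (𝓝 c) →
  Tendsto (fun K : ℕ => (∑ k ∈ range K, g k ^ s) * Real.log K ^ s / K) atTop (𝓝 (c ^ s))

/-- the inputs for the deterministic part -/
structure Inp (J : ℕ) (a g T : ℕ → ℝ) (c : ℝ) : Prop where
  odd : Odd J
  per : ∀ k, a (k + J) = a k
  a01 : ∀ k, a k = 0 ∨ a k = 1
  anti : ∀ k, g (k + 1) ≤ g k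
  nonneg : ∀ k, 0 ≤ g k
  lim : Tendsto (fun k : ℕ => g k * Real.log k) atTop (𝓝 c)
  T01 : ∀ k, T k = 0 ∨ T k = 1
  sumT : ∀ m r : ℕ, 1 ≤ m → ∃ C : ℝ, ∀ K : ℕ,
    |∑ k ∈ range K, (if k % m = r then T k - a k * g k ^ 2 else 0)| ≤ C * (K : ℝ) ^ (3 / 4 : ℝ)
  sumH : ∀ m r : ℕ, 1 ≤ m → ∃ C : ℝ, ∀ K : ℕ,
    |∑ k ∈ range K, (if k % m = r then hh T k * (T k - a k * g k ^ 2) else 0)| ≤ C * (K : ℝ) ^ (3 / 4 : ℝ)

/-- WSUM: the inputs with a periodic weight and a monotone factor -/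
def tWSUM : Prop := ∀ (J : ℕ) (e w g : ℕ → ℝ), 1 ≤ J → (∀ k, w (k + J) = w k) → (∀ k, g (k + 1) ≤ g k) →
  (∀ k, 0 ≤ g k) →
  (∀ m r : ℕ, 1 ≤ m → ∃ C : ℝ, ∀ K : ℕ,
    |∑ k ∈ range K, (if k % m = r then e k else 0)| ≤ C * (K : ℝ) ^ (3 / 4 : ℝ)) →
  ∃ C : ℝ, ∀ K : ℕ, |∑ k ∈ range K, g k * (w k * e k)| ≤ C * (K : ℝ) ^ (3 / 4 : ℝ)

/-- SHIFT: `∑ g_k a_k h_k = ∑ g_k β_{k+1} T_k (h_k + 1/2) + O(1)` -/
def tSHIFT : Prop := ∀ (a β g T : ℕ → ℝ) (M : ℝ), (∀ k, g (k + 1) ≤ g k) → (∀ k, 0 ≤ g k) →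
  (∀ k, T k = 0 ∨ T k = 1) → (∀ k, β k + β (k + 1) = a k) → (∀ k, |β k| ≤ M) →
  ∃ C : ℝ, ∀ K : ℕ,
    |∑ k ∈ range K, g k * (a k * hh T k) - ∑ k ∈ range K, g k * (β (k + 1) * (T k * (hh T k + 1 / 2)))| ≤ C

/-- COREN -/
def tCOREN : Prop := ∀ (J : ℕ) (a g T : ℕ → ℝ) (c : ℝ), Inp J a g T c →
  Tendsto (fun K : ℕ => (∑ k ∈ range K, T k) * Real.log K ^ 2 / K) atTop
    (𝓝 ((∑ k ∈ range J, a k) / J * c ^ 2)) ∧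
  ∃ C : ℝ, ∀ K : ℕ, |∑ k ∈ range K, (-1) ^ k * T k| ≤ C * (1 + (K : ℝ) ^ (3 / 4 : ℝ))

/-- CORED -/
def tCORED : Prop := ∀ (J : ℕ) (a g T : ℕ → ℝ) (c : ℝ), Inp J a g T c →
  Tendsto (fun K : ℕ => (∑ k ∈ range K, T k * hh T k) * Real.log K ^ 4 / K) atTop
    (𝓝 ((∑ k ∈ range J, a k) / J * c ^ 4 / 4))

/-- FINAL -/
def tFINAL : Prop := ∀ (T : ℕ → ℝ) (c α C : ℝ), 0 < c → 0 < α → (∀ k, T k = 0 ∨ T k = 1) →
  Tendsto (fun K : ℕ => (∑ k ∈ range K, T k) * Real.log K ^ 2 / K) atTop (𝓝 (α * c ^ 2)) →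
  Tendsto (fun K : ℕ => (∑ k ∈ range K, T k * hh T k) * Real.log K ^ 4 / K) atTop (𝓝 (α * c ^ 4 / 4)) →
  (∀ K : ℕ, |∑ k ∈ range K, (-1) ^ k * T k| ≤ C * (1 + (K : ℝ) ^ (3 / 4 : ℝ))) →
  ∀ P R : ℕ → ℝ,
    (∀ x : ℕ, |P x - (∑ k ∈ range ((x + 1) / 6), T k * (hh T k + 1 / 2)) / 2| ≤ 2) →
    (∀ x : ℕ, |R x - (∑ k ∈ range ((x + 1) / 6), T k) / 2| ≤ |∑ k ∈ range ((x + 1) / 6), (-1) ^ k * T k| / 2) →
    Tendsto (fun x : ℕ => (P x / R x - 1 / 2) * Real.log x ^ 2) atTop (𝓝 (c ^ 2 / 4))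

/-- `p` is the first member of a twin pair of elements of `S` -/
def First (S : Set ℕ) (p : ℕ) : Prop := p ∈ S ∧ p + 2 ∈ S

/-- `p'` is the first member of the twin pair which follows the one of `p` -/
def Next (S : Set ℕ) (p p' : ℕ) : Prop := p < p' ∧ First S p' ∧ ∀ m, p < m → m < p' → ¬ First S m

open Classical in
/-- the number of the first members `p ≤ x`, `p ≡ a (mod 4)` -/
noncomputable def pi2 (S : Set ℕ) (x a : ℕ) : ℕ := ((range (x + 1)).filter fun p => First S p ∧ p % 4 = a).card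

open Classical in
/-- the number of the first members `p ≤ x`, `p ≡ a (mod 4)`, for which the following one is `≡ b (mod 4)` -/
noncomputable def pi2next (S : Set ℕ) (x a b : ℕ) : ℕ :=
  ((range (x + 1)).filter fun p => First S p ∧ p % 4 = a ∧ ∃ p', Next S p p' ∧ p' % 4 = b).card

open Classical in
/-- the indicator of a twin pair `6 k + 5, 6 k + 7` -/
noncomputable def TT (S : Set ℕ) (k : ℕ) : ℝ := if First S (6 * k + 5) then 1 else 0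

/-- COMBA -/
def tCOMBA : Prop := ∀ S : Set ℕ, (∀ n ∈ S, n.Coprime 6) → {p | First S p}.Infinite → ∀ x : ℕ,
  (pi2 S x 1 : ℝ) = (∑ k ∈ range ((x + 1) / 6), TT S k + ∑ k ∈ range ((x + 1) / 6), (-1) ^ k * TT S k) / 2 ∧
  (pi2 S x 3 : ℝ) = (∑ k ∈ range ((x + 1) / 6), TT S k - ∑ k ∈ range ((x + 1) / 6), (-1) ^ k * TT S k) / 2 ∧
  pi2next S x 1 1 + pi2next S x 1 3 = pi2 S x 1 ∧ pi2next S x 3 1 + pi2next S x 3 3 = pi2 S x 3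

/-- COMBB -/
def tCOMBB : Prop := ∀ S : Set ℕ, (∀ n ∈ S, n.Coprime 6) → {p | First S p}.Infinite → ∀ x : ℕ,
  |(pi2next S x 1 3 : ℝ) - (∑ k ∈ range ((x + 1) / 6), TT S k * (hh (TT S) k + 1 / 2)) / 2| ≤ 2 ∧
  |(pi2next S x 3 1 : ℝ) - (∑ k ∈ range ((x + 1) / 6), TT S k * (hh (TT S) k + 1 / 2)) / 2| ≤ 2

end Pool.Agent.N893.TB
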