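import Mathlib
import Pool.Agent.N893.SM.Exp
import Pool.Agent.N893.SM.W2
import Pool.Agent.N893.SM.M1
import Pool.Agent.N893.TB.Stm

set_option autoImplicit false

/-! # A strong law for predictable weights -/

open MeasureTheory Filter Set
open scoped ENNReal Topology

namespace Pool.Agent.N893.TB

open Pool.Agent.R528.RM Pool.Agent.N893.SM

variable {Ω : Type} {m0 : MeasurableSpace Ω} {μ : Measure Ω} [IsProbabilityMeasure μ]
  {ℱ : Filtration ℕ m0} {A : ℕ → Set Ω}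

lemma ev_quarter : ∀ᶠ M : ℕ in atTop, 1 ≤ M ∧ √(M : ℝ) * (2 * Real.log M + 1) ≤ (M : ℝ) ^ (3 / 4 : ℝ) := by
  have h1 := ((isLittleO_log_rpow_atTop (r := (1 / 4 : ℝ)) (by norm_num)).bound (show (0 : ℝ) < 1 / 4 by norm_num)).natCast_atTop
  have h2 := (tendsto_rpow_atTop (y := (1 / 4 : ℝ)) (by norm_num)).comp (tendsto_natCast_atTop_atTop (R := ℝ))
  filter_upwards [h1, h2.eventually_ge_atTop 2, eventually_ge_atTop 1] with M h1 h2 h3
  refine ⟨h3, ?_⟩
  have h3' : (1 : ℝ) ≤ M := by exact_mod_cast h3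
  have hl : 0 ≤ Real.log (M : ℝ) := Real.log_nonneg h3'
  have hp : 0 ≤ (M : ℝ) ^ (1 / 4 : ℝ) := by positivity
  rw [Real.norm_eq_abs, Real.norm_eq_abs, abs_of_nonneg hl, abs_of_nonneg hp] at h1
  simp only [Function.comp_apply] at h2
  have e1 : √(M : ℝ) = (M : ℝ) ^ (1 / 2 : ℝ) := Real.sqrt_eq_rpow _
  have e2 : (M : ℝ) ^ (3 / 4 : ℝ) = (M : ℝ) ^ (1 / 2 : ℝ) * (M : ℝ) ^ (1 / 4 : ℝ) := by
    rw [← Real.rpow_add (by linarith)]
    norm_num
  rw [e1, e2]
  refine mul_le_mul_of_nonneg_left ?_ (by positivity)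
  linarith

theorem strong (hA : ∀ n, MeasurableSet[ℱ n] (A n)) {v : ℕ → ℕ} (hv : StrictMono v) (hv1 : ∀ n, 1 ≤ v n)
    {w : ℕ → Ω → ℝ} (hw : ∀ k, StronglyMeasurable[ℱ (v k - 1)] (w k)) (hw1 : ∀ k ω, 0 ≤ w k ω ∧ w k ω ≤ 1) :
    ∀ᵐ ω ∂μ, ∃ C : ℝ, 0 ≤ C ∧ ∀ M : ℕ,
      |∑ k ∈ Finset.range M, w k ω * (In A (v k) ω - dens μ ℱ A (v k - 1) ω)| ≤ C * (M : ℝ) ^ (3 / 4 : ℝ) := by
  classical
  set Bad : ℕ → Set Ω := fun M => {ω | 2 * Real.log M ≤ Gx μ ℱ A (1 / √(M : ℝ)) v w M ω} ∪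
    {ω | 2 * Real.log M ≤ Gx μ ℱ A (-(1 / √(M : ℝ))) v w M ω} with hBad
  have hsum : Summable (fun n : ℕ => 2 * ((n : ℝ) ^ 2)⁻¹) := (Real.summable_nat_pow_inv.2 (by norm_num)).mul_left 2
  have hb : ∀ᶠ n in atTop, μ.real (Bad n) ≤ 2 * ((n : ℝ) ^ 2)⁻¹ := by
    filter_upwards [eventually_ge_atTop 1] with x hx
    have hexp : Real.exp (-(2 * Real.log x)) = ((x : ℝ) ^ 2)⁻¹ := by
      rw [exp_log_rpow hx]
      congr 1
      exact_mod_cast Real.rpow_natCast (x : ℝ) 2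
    refine (measureReal_union_le _ _).trans ?_
    have a1 := Gx_tail (μ := μ) hA (1 / √(x : ℝ)) hv hv1 hw hw1 x (2 * Real.log x)
    have a2 := Gx_tail (μ := μ) hA (-(1 / √(x : ℝ))) hv hv1 hw hw1 x (2 * Real.log x)
    rw [hexp] at a1 a2
    linarith
  have h01 : ∀ᵐ ω ∂μ, ∀ n, 0 ≤ dens μ ℱ A n ω ∧ dens μ ℱ A n ω ≤ 1 := ae_all_iff.2 fun n => dens01 hA n
  filter_upwards [bc_real (μ := μ) hsum hb, h01] with ω hω h01
  obtain ⟨M0, hM0⟩ := eventually_atTop.1 (hω.and ev_quarter)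
  have hS : ∀ M : ℕ, |∑ k ∈ Finset.range M, w k ω * (In A (v k) ω - dens μ ℱ A (v k - 1) ω)| ≤ M := by
    intro M
    refine (Finset.abs_sum_le_sum_abs _ _).trans ?_
    calc ∑ k ∈ Finset.range M, |w k ω * (In A (v k) ω - dens μ ℱ A (v k - 1) ω)| ≤ ∑ k ∈ Finset.range M, (1 : ℝ) := by
          refine Finset.sum_le_sum fun k _ => ?_
          rw [abs_mul, abs_of_nonneg (hw1 k ω).1]
          have h2 : |In A (v k) ω - dens μ ℱ A (v k - 1) ω| ≤ 1 := by
            rw [abs_le]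
            constructor
            · linarith [In_nonneg (A := A) (v k) ω, (h01 (v k - 1)).2]
            · linarith [In_le (A := A) (v k) ω, (h01 (v k - 1)).1]
          calc w k ω * |In A (v k) ω - dens μ ℱ A (v k - 1) ω| ≤ 1 * 1 :=
                mul_le_mul (hw1 k ω).2 h2 (abs_nonneg _) zero_le_one
            _ = 1 := one_mul 1
      _ = M := by simp
  refine ⟨M0 + 1, by positivity, fun M => ?_⟩
  rcases Nat.eq_zero_or_pos M with h0 | hpos
  · subst h0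
    simp
  have hM1 : (1 : ℝ) ≤ M := by exact_mod_cast hpos
  have hp1 : (1 : ℝ) ≤ (M : ℝ) ^ (3 / 4 : ℝ) := Real.one_le_rpow hM1 (by norm_num)
  rcases lt_or_ge M M0 with h | h
  · refine (hS M).trans ?_
    have h2 : (M : ℝ) ≤ M0 := by exact_mod_cast h.le
    nlinarith
  · obtain ⟨hbad, -, hq⟩ := hM0 M h
    simp only [hBad, Set.mem_union, Set.mem_setOf_eq, not_or, not_le] at hbad
    obtain ⟨b1, b2⟩ := hbad
    set S := ∑ k ∈ Finset.range M, w k ω * (In A (v k) ω - dens μ ℱ A (v k - 1) ω) with hSd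
    set X := ∑ k ∈ Finset.range M, w k ω * dens μ ℱ A (v k - 1) ω with hX
    have hX0 : 0 ≤ X := Finset.sum_nonneg fun k _ => mul_nonneg (hw1 k ω).1 (h01 _).1
    have hX1 : X ≤ M := by
      calc X ≤ ∑ k ∈ Finset.range M, (1 : ℝ) := Finset.sum_le_sum fun k _ => by
            calc w k ω * dens μ ℱ A (v k - 1) ω ≤ 1 * 1 := mul_le_mul (hw1 k ω).2 (h01 _).2 (h01 _).1 zero_le_one
              _ = 1 := one_mul 1
        _ = M := by simp
    have hG : ∀ θ : ℝ, Gx μ ℱ A θ v w M ω = θ * S - (Real.exp θ - 1 - θ) * X := by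
      intro θ
      unfold Gx
      rw [hSd, hX, Finset.mul_sum, Finset.mul_sum, ← Finset.sum_sub_distrib]
      refine Finset.sum_congr rfl fun k _ => ?_
      ring
    set r := √(M : ℝ) with hr
    have hr0 : 0 < r := Real.sqrt_pos.2 (by linarith)
    have hr1 : 1 ≤ r := by
      rw [hr]
      exact Real.one_le_sqrt.2 hM1
    have hr2 : r ^ 2 = M := Real.sq_sqrt (by linarith)
    have hθ : |1 / r| ≤ 1 := by
      rw [abs_of_nonneg (by positivity), div_le_one hr0]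
      exact hr1
    have hθ2 : |-(1 / r)| ≤ 1 := by rwa [abs_neg]
    have k1 := (abs_le.1 (Real.abs_exp_sub_one_sub_id_le hθ)).2
    have k2 := (abs_le.1 (Real.abs_exp_sub_one_sub_id_le hθ2)).2
    rw [hG] at b1 b2
    have e1 : (1 / r) ^ 2 * M = 1 := by
      rw [← hr2]
      field_simp
    have c1 : (Real.exp (1 / r) - 1 - 1 / r) * X ≤ 1 := by
      calc (Real.exp (1 / r) - 1 - 1 / r) * X ≤ (1 / r) ^ 2 * M := by
            refine mul_le_mul k1 hX1 hX0 (by positivity)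
        _ = 1 := e1
    have c2 : (Real.exp (-(1 / r)) - 1 - -(1 / r)) * X ≤ 1 := by
      calc (Real.exp (-(1 / r)) - 1 - -(1 / r)) * X ≤ (-(1 / r)) ^ 2 * M := by
            refine mul_le_mul k2 hX1 hX0 (by positivity)
        _ = 1 := by rw [neg_sq]; exact e1
    have d1 : 1 / r * S ≤ 2 * Real.log M + 1 := by linarith
    have d2 : 1 / r * (-S) ≤ 2 * Real.log M + 1 := by linarith
    have f1 : S ≤ r * (2 * Real.log M + 1) := by
      calc S = r * (1 / r * S) := by field_simp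
        _ ≤ _ := mul_le_mul_of_nonneg_left d1 hr0.le
    have f2 : -S ≤ r * (2 * Real.log M + 1) := by
      calc -S = r * (1 / r * (-S)) := by field_simp
        _ ≤ _ := mul_le_mul_of_nonneg_left d2 hr0.le
    have f3 : |S| ≤ (M : ℝ) ^ (3 / 4 : ℝ) := (abs_le.2 ⟨by linarith, f1⟩).trans hq
    refine f3.trans ?_
    have : (0 : ℝ) ≤ M0 := Nat.cast_nonneg _
    nlinarith

/-- the twin indicators of a realisation -/
noncomputable def Tw (A : ℕ → Set Ω) (ω : Ω) (k : ℕ) : ℝ := In A (6 * k + 5) ω * In A (6 * k + 7) ω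

lemma Tw_eq (A : ℕ → Set Ω) (ω : Ω) : Tw A ω = TT {n | ω ∈ A n} := by
  classical
  funext k
  unfold Tw TT First In
  by_cases h1 : ω ∈ A (6 * k + 5)
  · by_cases h2 : ω ∈ A (6 * k + 7)
    · rw [indicator_of_mem h1, indicator_of_mem h2, if_pos ⟨h1, h2⟩, one_mul]
    · rw [indicator_of_notMem h2, if_neg (fun h => h2 h.2), mul_zero]
  · rw [indicator_of_notMem h1, if_neg (fun h => h1 h.1), zero_mul]

lemma Tw01 (A : ℕ → Set Ω) (ω : Ω) (k : ℕ) : Tw A ω k = 0 ∨ Tw A ω k = 1 := by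
  classical
  rw [Tw_eq]
  unfold TT
  split_ifs
  · right; rfl
  · left; rfl

lemma hh_half {T : ℕ → ℝ} (hT : ∀ k, T k = 0 ∨ T k = 1) (k : ℕ) : hh T k = 1 / 2 ∨ hh T k = -(1 / 2) := by
  induction k with
  | zero => right; rfl
  | succ k ih =>
    show -hh T k + T k * (hh T k + 1 / 2) = 1 / 2 ∨ -hh T k + T k * (hh T k + 1 / 2) = -(1 / 2)
    rcases hT k with h | h <;> rcases ih with h' | h' <;> rw [h, h'] <;> norm_num

lemma hh_meas (hA : ∀ n, MeasurableSet[ℱ n] (A n)) (k : ℕ) :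
    StronglyMeasurable[ℱ (6 * k + 4)] (fun ω => hh (Tw A ω) k) := by
  induction k with
  | zero => exact stronglyMeasurable_const
  | succ k ih =>
    have h1 : StronglyMeasurable[ℱ (6 * (k + 1) + 4)] (fun ω => hh (Tw A ω) k) := ih.mono (ℱ.mono (by omega))
    have h2 : StronglyMeasurable[ℱ (6 * (k + 1) + 4)] (fun ω => Tw A ω k) :=
      (In_meas hA (by omega)).mul (In_meas hA (by omega))
    exact h1.neg.add (h2.mul (h1.add stronglyMeasurable_const))

end Pool.Agent.N893.TB
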