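import Mathlib
import Pool.Agent.N893.TB.P1

set_option autoImplicit false

/-! # The inputs hold almost surely -/

open MeasureTheory Filter Set
open scoped ENNReal Topology

namespace Pool.Agent.N893.TB

open Pool.Agent.R528.RM Pool.Agent.N893.SM

variable {Ω : Type} {m0 : MeasurableSpace Ω} {μ : Measure Ω} [IsProbabilityMeasure μ]
  {ℱ : Filtration ℕ m0} {A : ℕ → Set Ω}

open Classical in
/-- the indices `k` such that `6 k + 5` and `6 k + 7` are free of the primes of `Q` -/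
noncomputable def aQ (Q : Finset ℕ) (k : ℕ) : ℝ := if ∀ p ∈ Q, ¬ p ∣ 6 * k + 5 ∧ ¬ p ∣ 6 * k + 7 then 1 else 0

lemma aQ01 (Q : Finset ℕ) (k : ℕ) : aQ Q k = 0 ∨ aQ Q k = 1 := by
  unfold aQ
  split_ifs
  · right; rfl
  · left; rfl

/-- the deterministic part of the strong law -/
lemma wsum {Q : Finset ℕ} {I D lam U : ℕ → ℝ} (hI : ∀ n, 0 ≤ I n ∧ I n ≤ 1) (hU : ∀ k, 0 ≤ U k ∧ U k ≤ 1)
    (hI0 : ∀ n, (∃ p ∈ Q, p ∣ n) → I n = 0) (hD0 : ∀ n, (∃ p ∈ Q, p ∣ n + 1) → D n = 0)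
    (hlam0 : ∀ n, 2 ≤ n → 0 ≤ lam n) (hlam : ∀ n, 2 ≤ n → lam (n + 1) ≤ lam n)
    (hDl : ∀ n, 2 ≤ n → (∀ p ∈ Q, ¬ p ∣ n + 1) → D n = lam n)
    (h1 : ∃ C : ℝ, 0 ≤ C ∧ ∀ M : ℕ, |∑ k ∈ Finset.range M, U k * I (6 * k + 5) * (I (6 * k + 7) - D (6 * k + 7 - 1))| ≤ C * (M : ℝ) ^ (3 / 4 : ℝ))
    (h2 : ∃ C : ℝ, 0 ≤ C ∧ ∀ M : ℕ, |∑ k ∈ Finset.range M, U k * aQ Q k * (I (6 * k + 5) - D (6 * k + 5 - 1))| ≤ C * (M : ℝ) ^ (3 / 4 : ℝ)) :
    ∃ C : ℝ, 0 ≤ C ∧ ∀ K : ℕ, |∑ k ∈ Finset.range K, U k * (I (6 * k + 5) * I (6 * k + 7) - aQ Q k * lam (6 * k + 4) ^ 2)| ≤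
      C * (K : ℝ) ^ (3 / 4 : ℝ) := by
  classical
  obtain ⟨C1, hC1, h1⟩ := h1
  obtain ⟨C2, hC2, h2⟩ := h2
  have hanti : ∀ m n, 2 ≤ m → m ≤ n → lam n ≤ lam m := by
    intro m n hm hmn
    induction n, hmn using Nat.le_induction with
    | base => exact le_rfl
    | succ n hn ih => exact (hlam n (by omega)).trans ih
  have hg0 : 0 ≤ lam 4 := hlam0 4 (by norm_num)
  have hstep : ∀ k, U k * (I (6 * k + 5) * I (6 * k + 7) - aQ Q k * lam (6 * k + 4) ^ 2) =
      U k * I (6 * k + 5) * (I (6 * k + 7) - D (6 * k + 7 - 1)) +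
        lam (6 * k + 4) * (U k * aQ Q k * (I (6 * k + 5) - D (6 * k + 5 - 1))) -
        U k * aQ Q k * I (6 * k + 5) * (lam (6 * k + 4) - lam (6 * k + 6)) := by
    intro k
    have e7 : 6 * k + 7 - 1 = 6 * k + 6 := by omega
    have e5 : 6 * k + 5 - 1 = 6 * k + 4 := by omega
    rw [e7, e5]
    by_cases hc : ∀ p ∈ Q, ¬ p ∣ 6 * k + 5 ∧ ¬ p ∣ 6 * k + 7
    · have ha : aQ Q k = 1 := by unfold aQ; rw [if_pos hc]
      have d4 : D (6 * k + 4) = lam (6 * k + 4) := hDl _ (by omega) fun p hp => (hc p hp).1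
      have d6 : D (6 * k + 6) = lam (6 * k + 6) := hDl _ (by omega) fun p hp => (hc p hp).2
      rw [ha, d4, d6]
      ring
    · have ha : aQ Q k = 0 := by unfold aQ; rw [if_neg hc]
      push Not at hc
      obtain ⟨p, hp, hpd⟩ := hc
      have h0 : I (6 * k + 5) * I (6 * k + 7) = 0 ∧ I (6 * k + 5) * D (6 * k + 6) = 0 := by
        by_cases h5 : p ∣ 6 * k + 5
        · rw [hI0 _ ⟨p, hp, h5⟩, zero_mul, zero_mul]
          exact ⟨rfl, rfl⟩
        · have h7 := hpd h5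
          rw [hI0 _ ⟨p, hp, h7⟩, hD0 (6 * k + 6) ⟨p, hp, h7⟩, mul_zero]
          exact ⟨rfl, rfl⟩
      rw [ha]
      linear_combination (U k) * h0.2
  refine ⟨C1 + lam 4 * C2 + lam 4, by positivity, fun K => ?_⟩
  rcases Nat.eq_zero_or_pos K with h0 | hpos
  · subst h0
    simp
  have hK1 : (1 : ℝ) ≤ K := by exact_mod_cast hpos
  have hp1 : (1 : ℝ) ≤ (K : ℝ) ^ (3 / 4 : ℝ) := Real.one_le_rpow hK1 (by norm_num)
  rw [Finset.sum_congr rfl fun k _ => hstep k, Finset.sum_sub_distrib, Finset.sum_add_distrib]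
  have b2 := abel_anti (l := fun k => lam (6 * k + 4)) (h := fun k => U k * aQ Q k * (I (6 * k + 5) - D (6 * k + 5 - 1)))
    (C := C2 * (K : ℝ) ^ (3 / 4 : ℝ)) (fun n => hanti _ _ (by omega) (by omega)) (fun n => hlam0 _ (by omega))
    (by positivity) K (fun n hn => (h2 n).trans (by gcongr))
  have b3 : |∑ k ∈ Finset.range K, U k * aQ Q k * I (6 * k + 5) * (lam (6 * k + 4) - lam (6 * k + 6))| ≤ lam 4 := by
    refine (Finset.abs_sum_le_sum_abs _ _).trans ?_
    have hb : ∀ k ∈ Finset.range K, |U k * aQ Q k * I (6 * k + 5) * (lam (6 * k + 4) - lam (6 * k + 6))| ≤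
        lam (6 * k + 4) - lam (6 * (k + 1) + 4) := by
      intro k _
      have e1 : 0 ≤ lam (6 * k + 4) - lam (6 * k + 6) := sub_nonneg.2 (hanti _ _ (by omega) (by omega))
      have e2 : lam (6 * k + 4) - lam (6 * k + 6) ≤ lam (6 * k + 4) - lam (6 * (k + 1) + 4) :=
        sub_le_sub_left (hanti _ _ (by omega) (by omega)) _
      have e3 : 0 ≤ U k * aQ Q k * I (6 * k + 5) ∧ U k * aQ Q k * I (6 * k + 5) ≤ 1 := by
        have ha : 0 ≤ aQ Q k ∧ aQ Q k ≤ 1 := by
          rcases aQ01 Q k with h | h <;> rw [h] <;> norm_num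
        refine ⟨mul_nonneg (mul_nonneg (hU k).1 ha.1) (hI _).1, ?_⟩
        calc U k * aQ Q k * I (6 * k + 5) ≤ 1 * 1 * 1 := by
              refine mul_le_mul (mul_le_mul (hU k).2 ha.2 ha.1 zero_le_one) (hI _).2 (hI _).1 (by norm_num)
          _ = 1 := by norm_num
      rw [abs_of_nonneg (mul_nonneg e3.1 e1)]
      calc U k * aQ Q k * I (6 * k + 5) * (lam (6 * k + 4) - lam (6 * k + 6)) ≤ 1 * (lam (6 * k + 4) - lam (6 * k + 6)) :=
            mul_le_mul_of_nonneg_right e3.2 e1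
        _ ≤ _ := by rw [one_mul]; exact e2
    refine (Finset.sum_le_sum hb).trans ?_
    rw [Finset.sum_range_sub' (fun k => lam (6 * k + 4))]
    have := hlam0 (6 * K + 4) (by omega)
    simp only [mul_zero, zero_add]
    linarith
  have b1 := h1 K
  have t1 := abs_le.1 b1
  have t2 := abs_le.1 b2
  have t3 := abs_le.1 b3
  simp only [mul_zero, zero_add] at t2
  rw [abs_le]
  constructor
  · nlinarith
  · nlinarith

/-- the limit of `lam n log n` along all `n` -/
lemma lam_lim {Q : Finset ℕ} (hQ : ∀ p ∈ Q, p.Prime) {D lam : ℕ → ℝ} {c : ℝ}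
    (hlam0 : ∀ n, 2 ≤ n → 0 ≤ lam n) (hlam : ∀ n, 2 ≤ n → lam (n + 1) ≤ lam n)
    (hDl : ∀ n, 2 ≤ n → (∀ p ∈ Q, ¬ p ∣ n + 1) → D n = lam n)
    (hlim : Tendsto (fun n : ℕ => D n * Real.log n) (atTop ⊓ 𝓟 {n : ℕ | ∀ p ∈ Q, ¬ p ∣ n + 1}) (𝓝 c)) :
    Tendsto (fun k : ℕ => lam (6 * k + 4) * Real.log k) atTop (𝓝 c) := by
  classical
  have hanti : ∀ m n, 2 ≤ m → m ≤ n → lam n ≤ lam m := by
    intro m n hm hmn
    induction n, hmn using Nat.le_induction with
    | base => exact le_rfl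
    | succ n hn ih => exact (hlam n (by omega)).trans ih
  set W : ℕ := ∏ p ∈ Q, p with hW
  have hW0 : 0 < W := Finset.prod_pos fun p hp => (hQ p hp).pos
  have hadm : ∀ i : ℕ, ∀ p ∈ Q, ¬ p ∣ W * i + 1 := by
    intro i p hp hd
    have h1 : p ∣ W * i := (Finset.dvd_prod_of_mem _ hp).mul_right i
    have h2 : p ∣ 1 := (Nat.dvd_add_right h1).1 hd
    exact (hQ p hp).one_lt.ne' (Nat.dvd_one.1 h2)
  -- along a sequence of admissible numbers near `6 k + 4`
  have key : ∀ f : ℕ → ℕ, (∀ k, ∀ p ∈ Q, ¬ p ∣ f k + 1) → (∀ᶠ k in atTop, k ≤ f k ∧ f k ≤ (6 + 2 * W) * (k + 1)) →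
      Tendsto (fun k : ℕ => lam (f k) * Real.log k) atTop (𝓝 c) := by
    intro f hf hfb
    have hft : Tendsto f atTop atTop := tendsto_atTop_mono' _ (hfb.mono fun k h => h.1) tendsto_id
    have h1 : Tendsto (fun k => D (f k) * Real.log (f k)) atTop (𝓝 c) :=
      hlim.comp (tendsto_inf.2 ⟨hft, tendsto_principal.2 (Eventually.of_forall hf)⟩)
    have hlogt : Tendsto (fun k : ℕ => Real.log (k : ℝ)) atTop atTop := Real.tendsto_log_atTop.comp tendsto_natCast_atTop_atTop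
    have h2 : Tendsto (fun k : ℕ => Real.log (k : ℝ) / Real.log (f k)) atTop (𝓝 1) := by
      have hcst : Tendsto (fun k : ℕ => Real.log (k : ℝ) / (Real.log (k : ℝ) + Real.log (2 * (6 + 2 * W)))) atTop (𝓝 1) := by
        have h3 : Tendsto (fun k : ℕ => 1 - Real.log (2 * (6 + 2 * W)) / (Real.log (k : ℝ) + Real.log (2 * (6 + 2 * W)))) atTop (𝓝 (1 - 0)) :=
          tendsto_const_nhds.sub (tendsto_const_nhds.div_atTop (tendsto_atTop_add_const_right _ _ hlogt))
        rw [sub_zero] at h3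
        refine h3.congr' ?_
        filter_upwards [hlogt.eventually_gt_atTop 0] with k hk
        have hl : 0 ≤ Real.log (2 * (6 + 2 * (W : ℝ))) := Real.log_nonneg (by
          have : (0 : ℝ) ≤ W := Nat.cast_nonneg _
          linarith)
        field_simp
        ring
      refine tendsto_of_tendsto_of_tendsto_of_le_of_le' hcst tendsto_const_nhds ?_ ?_
      · filter_upwards [hfb, hlogt.eventually_gt_atTop 0, eventually_ge_atTop 1] with k hk hlk hk1
        have hk1' : (1 : ℝ) ≤ k := by exact_mod_cast hk1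
        have hfk : (k : ℝ) ≤ f k := by exact_mod_cast hk.1
        have hfl : 0 < Real.log (f k) := lt_of_lt_of_le hlk (Real.log_le_log (by linarith) hfk)
        have hfu : Real.log (f k) ≤ Real.log k + Real.log (2 * (6 + 2 * W)) := by
          have hw : (0 : ℝ) ≤ W := Nat.cast_nonneg _
          rw [← Real.log_mul (by positivity) (by positivity)]
          apply Real.log_le_log (by linarith)
          have h4 : (f k : ℝ) ≤ (6 + 2 * W) * (k + 1) := by exact_mod_cast hk.2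
          nlinarith
        gcongr
      · filter_upwards [hfb, hlogt.eventually_gt_atTop 0, eventually_ge_atTop 1] with k hk hlk hk1
        have hk1' : (1 : ℝ) ≤ k := by exact_mod_cast hk1
        have hfk : (k : ℝ) ≤ f k := by exact_mod_cast hk.1
        have hle : Real.log k ≤ Real.log (f k) := Real.log_le_log (by linarith) hfk
        rw [div_le_one (by linarith)]
        exact hle
    have h3 := h1.mul h2
    rw [mul_one] at h3
    refine h3.congr' ?_
    filter_upwards [hfb, hlogt.eventually_gt_atTop 0, eventually_ge_atTop 2] with k hk hlk hk1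
    have hk1' : (2 : ℝ) ≤ k := by exact_mod_cast hk1
    have hfk : (k : ℝ) ≤ f k := by exact_mod_cast hk.1
    have hfl : 0 < Real.log (f k) := lt_of_lt_of_le hlk (Real.log_le_log (by linarith) hfk)
    rw [hDl (f k) (by omega) (hf k)]
    field_simp
  have u1 := key (fun k => W * ((6 * k + 4) / W)) (fun k => hadm _) (by
    filter_upwards [eventually_ge_atTop W] with k hk
    have h1 := Nat.div_add_mod (6 * k + 4) W
    have h2 := Nat.mod_lt (6 * k + 4) hW0
    constructor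
    · omega
    · have : (6 + 2 * W) * (k + 1) = 6 * (k + 1) + 2 * W * (k + 1) := by ring
      omega)
  have u2 := key (fun k => W * ((6 * k + 4) / W + 1)) (fun k => hadm _) (by
    filter_upwards [eventually_ge_atTop 0] with k _
    have h1 := Nat.div_add_mod (6 * k + 4) W
    have h2 := Nat.mod_lt (6 * k + 4) hW0
    have h3 : W * ((6 * k + 4) / W + 1) = W * ((6 * k + 4) / W) + W := by ring
    rw [h3]
    constructor
    · omega
    · have h4 : (6 + 2 * W) * (k + 1) = 6 * (k + 1) + 2 * W * k + 2 * W := by ring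
      omega)
  refine tendsto_of_tendsto_of_tendsto_of_le_of_le' u2 u1 ?_ ?_
  · filter_upwards [eventually_ge_atTop 1] with k hk
    have h1 := Nat.div_add_mod (6 * k + 4) W
    have h2 := Nat.mod_lt (6 * k + 4) hW0
    have h3 : W * ((6 * k + 4) / W + 1) = W * ((6 * k + 4) / W) + W := by ring
    exact mul_le_mul_of_nonneg_right (hanti _ _ (by omega) (by omega)) (Real.log_nonneg (by exact_mod_cast hk))
  · filter_upwards [eventually_ge_atTop (W + 2)] with k hk
    have h1 := Nat.div_add_mod (6 * k + 4) W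
    have h2 := Nat.mod_lt (6 * k + 4) hW0
    refine mul_le_mul_of_nonneg_right (hanti _ _ ?_ ?_) (Real.log_nonneg (by exact_mod_cast (by omega : 1 ≤ k)))
    · omega
    · omega

end Pool.Agent.N893.TB
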