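import Mathlib
import Pool.Agent.N893.TB.P2

set_option autoImplicit false

/-! # The inputs hold almost surely -/

open MeasureTheory Filter Set
open scoped ENNReal Topology

namespace Pool.Agent.N893.TB

open Pool.Agent.R528.RM Pool.Agent.N893.SM

variable {Ω : Type} {m0 : MeasurableSpace Ω} {μ : Measure Ω} [IsProbabilityMeasure μ]
  {ℱ : Filtration ℕ m0} {A : ℕ → Set Ω}

lemma both (hA : ∀ n, MeasurableSet[ℱ n] (A n)) (Q : Finset ℕ) {U : ℕ → Ω → ℝ}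
    (hU : ∀ k, StronglyMeasurable[ℱ (6 * k + 4)] (U k)) (hU1 : ∀ k ω, 0 ≤ U k ω ∧ U k ω ≤ 1) :
    ∀ᵐ ω ∂μ, (∃ C : ℝ, 0 ≤ C ∧ ∀ M : ℕ,
        |∑ k ∈ Finset.range M, U k ω * In A (6 * k + 5) ω * (In A (6 * k + 7) ω - dens μ ℱ A (6 * k + 7 - 1) ω)| ≤
          C * (M : ℝ) ^ (3 / 4 : ℝ)) ∧
      (∃ C : ℝ, 0 ≤ C ∧ ∀ M : ℕ,
        |∑ k ∈ Finset.range M, U k ω * aQ Q k * (In A (6 * k + 5) ω - dens μ ℱ A (6 * k + 5 - 1) ω)| ≤
          C * (M : ℝ) ^ (3 / 4 : ℝ)) := by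
  have s1 := strong (μ := μ) hA (v := fun k => 6 * k + 7) (fun a b h => by show 6 * a + 7 < 6 * b + 7; omega)
    (fun n => by show 1 ≤ 6 * n + 7; omega) (w := fun k ω => U k ω * In A (6 * k + 5) ω)
    (fun k => ((hU k).mono (ℱ.mono (by show 6 * k + 4 ≤ 6 * k + 7 - 1; omega))).mul (In_meas hA (by show 6 * k + 5 ≤ 6 * k + 7 - 1; omega)))
    (fun k ω => ⟨mul_nonneg (hU1 k ω).1 (In_nonneg _ _), by
      calc U k ω * In A (6 * k + 5) ω ≤ 1 * 1 := mul_le_mul (hU1 k ω).2 (In_le _ _) (In_nonneg _ _) zero_le_one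
        _ = 1 := one_mul 1⟩)
  have s2 := strong (μ := μ) hA (v := fun k => 6 * k + 5) (fun a b h => by show 6 * a + 5 < 6 * b + 5; omega)
    (fun n => by show 1 ≤ 6 * n + 5; omega) (w := fun k ω => U k ω * aQ Q k)
    (fun k => ((hU k).mono (ℱ.mono (by show 6 * k + 4 ≤ 6 * k + 5 - 1; omega))).mul stronglyMeasurable_const)
    (fun k ω => by
      have ha : 0 ≤ aQ Q k ∧ aQ Q k ≤ 1 := by
        rcases aQ01 Q k with h | h <;> rw [h] <;> norm_num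
      exact ⟨mul_nonneg (hU1 k ω).1 ha.1, by
        calc U k ω * aQ Q k ≤ 1 * 1 := mul_le_mul (hU1 k ω).2 ha.2 ha.1 zero_le_one
          _ = 1 := one_mul 1⟩)
  filter_upwards [s1, s2] with ω h1 h2
  exact ⟨h1, h2⟩

/-- the period -/
noncomputable def JQ (Q : Finset ℕ) : ℕ := ∏ p ∈ (Q.erase 2).erase 3, p

lemma JQ_odd {Q : Finset ℕ} (hQ : ∀ p ∈ Q, p.Prime) : Odd (JQ Q) := by
  unfold JQ
  refine Finset.prod_induction _ Odd (fun a b => Odd.mul) odd_one fun p hp => ?_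
  rw [Finset.mem_erase, Finset.mem_erase] at hp
  exact (hQ p hp.2.2).odd_of_ne_two hp.2.1

lemma JQ_pos {Q : Finset ℕ} (hQ : ∀ p ∈ Q, p.Prime) : 0 < JQ Q := (JQ_odd hQ).pos

lemma dvd6J {Q : Finset ℕ} {p : ℕ} (hp : p ∈ Q) : p ∣ 6 * JQ Q := by
  by_cases h2 : p = 2
  · subst h2
    exact dvd_mul_of_dvd_left (by norm_num) _
  by_cases h3 : p = 3
  · subst h3
    exact dvd_mul_of_dvd_left (by norm_num) _
  · exact (Finset.dvd_prod_of_mem _ (Finset.mem_erase.2 ⟨h3, Finset.mem_erase.2 ⟨h2, hp⟩⟩)).mul_left 6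

lemma aQ_per (Q : Finset ℕ) (k : ℕ) : aQ Q (k + JQ Q) = aQ Q k := by
  classical
  unfold aQ
  have h : (∀ p ∈ Q, ¬ p ∣ 6 * (k + JQ Q) + 5 ∧ ¬ p ∣ 6 * (k + JQ Q) + 7) ↔ ∀ p ∈ Q, ¬ p ∣ 6 * k + 5 ∧ ¬ p ∣ 6 * k + 7 := by
    refine forall_congr' fun p => forall_congr' fun hp => ?_
    have h1 := dvd6J hp
    have e5 : 6 * (k + JQ Q) + 5 = 6 * JQ Q + (6 * k + 5) := by ring
    have e7 : 6 * (k + JQ Q) + 7 = 6 * JQ Q + (6 * k + 7) := by ring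
    rw [e5, e7, Nat.dvd_add_right h1, Nat.dvd_add_right h1]
  simp only [h]

lemma aQ_sum {Q : Finset ℕ} (hQ : ∀ p ∈ Q, p.Prime) : 0 < (∑ k ∈ Finset.range (JQ Q), aQ Q k) / (JQ Q : ℝ) := by
  classical
  have hJ := JQ_pos hQ
  have h0 : ∀ k ∈ Finset.range (JQ Q), 0 ≤ aQ Q k := fun k _ => by
    rcases aQ01 Q k with h | h <;> rw [h] <;> norm_num
  have h1 : aQ Q (JQ Q - 1) = 1 := by
    unfold aQ
    rw [if_pos]
    intro p hp
    have hd := dvd6J hp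
    have hp1 := (hQ p hp).one_lt
    have e7 : 6 * (JQ Q - 1) + 7 = 6 * JQ Q + 1 := by omega
    constructor
    · intro h
      have h2 : p ∣ 6 * (JQ Q - 1) + 5 + 1 := by
        have e6 : 6 * (JQ Q - 1) + 5 + 1 = 6 * JQ Q := by omega
        rw [e6]; exact hd
      exact hp1.ne' (Nat.dvd_one.1 ((Nat.dvd_add_right h).1 h2))
    · intro h
      rw [e7] at h
      exact hp1.ne' (Nat.dvd_one.1 ((Nat.dvd_add_right hd).1 h))
  have h2 : 1 ≤ ∑ k ∈ Finset.range (JQ Q), aQ Q k := by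
    rw [← h1]
    exact Finset.single_le_sum h0 (Finset.mem_range.2 (by omega))
  have hJr : (0 : ℝ) < JQ Q := by exact_mod_cast hJ
  positivity

theorem inputs {Q : Finset ℕ} (hQ : ∀ p ∈ Q, p.Prime) (hA : ∀ n, MeasurableSet[ℱ n] (A n))
    (hcop : ∀ n, (∃ p ∈ Q, p ∣ n) → A n = ∅) {lam : ℕ → Ω → ℝ} {c : ℝ}
    (hlam : ∀ᵐ ω ∂μ, ∀ n : ℕ, 2 ≤ n → 0 ≤ lam n ω ∧ lam (n + 1) ω ≤ lam n ω ∧
      ((∀ p ∈ Q, ¬ p ∣ n + 1) → dens μ ℱ A n ω = lam n ω))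
    (hlim : ∀ᵐ ω ∂μ, Tendsto (fun n : ℕ => dens μ ℱ A n ω * Real.log n)
      (atTop ⊓ 𝓟 {n : ℕ | ∀ p ∈ Q, ¬ p ∣ n + 1}) (𝓝 c)) :
    ∀ᵐ ω ∂μ, Inp (JQ Q) (aQ Q) (fun k => lam (6 * k + 4) ω) (Tw A ω) c := by
  classical
  have hzero : ∀ᵐ ω ∂μ, ∀ n, (∃ p ∈ Q, p ∣ n + 1) → dens μ ℱ A n ω = 0 := by
    rw [ae_all_iff]
    intro n
    by_cases hn : ∃ p ∈ Q, p ∣ n + 1
    · have h1 : (A (n + 1)).indicator (fun _ => (1 : ℝ)) = 0 := by
        rw [hcop (n + 1) hn, Set.indicator_empty]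
        rfl
      have h2 : dens μ ℱ A n =ᵐ[μ] 0 := by
        unfold dens
        rw [h1]
        exact (condExp_zero (μ := μ) (m := ℱ n)).eventuallyEq
      filter_upwards [h2] with ω hω _
      exact hω
    · exact Eventually.of_forall fun ω h => absurd h hn
  set Ur : ℕ → ℕ → ℕ → Ω → ℝ := fun m r k _ => if k % m = r then 1 else 0 with hUr
  set Uh : ℕ → ℕ → ℕ → Ω → ℝ := fun m r k ω => if k % m = r then hh (Tw A ω) k + 1 / 2 else 0 with hUh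
  have br : ∀ᵐ ω ∂μ, ∀ m r : ℕ, (∃ C : ℝ, 0 ≤ C ∧ ∀ M : ℕ,
        |∑ k ∈ Finset.range M, Ur m r k ω * In A (6 * k + 5) ω * (In A (6 * k + 7) ω - dens μ ℱ A (6 * k + 7 - 1) ω)| ≤
          C * (M : ℝ) ^ (3 / 4 : ℝ)) ∧
      (∃ C : ℝ, 0 ≤ C ∧ ∀ M : ℕ,
        |∑ k ∈ Finset.range M, Ur m r k ω * aQ Q k * (In A (6 * k + 5) ω - dens μ ℱ A (6 * k + 5 - 1) ω)| ≤
          C * (M : ℝ) ^ (3 / 4 : ℝ)) :=
    ae_all_iff.2 fun m => ae_all_iff.2 fun r => both hA Q (U := Ur m r) (fun k => stronglyMeasurable_const) (fun k ω => by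
      simp only [hUr]
      split_ifs <;> norm_num)
  have bh : ∀ᵐ ω ∂μ, ∀ m r : ℕ, (∃ C : ℝ, 0 ≤ C ∧ ∀ M : ℕ,
        |∑ k ∈ Finset.range M, Uh m r k ω * In A (6 * k + 5) ω * (In A (6 * k + 7) ω - dens μ ℱ A (6 * k + 7 - 1) ω)| ≤
          C * (M : ℝ) ^ (3 / 4 : ℝ)) ∧
      (∃ C : ℝ, 0 ≤ C ∧ ∀ M : ℕ,
        |∑ k ∈ Finset.range M, Uh m r k ω * aQ Q k * (In A (6 * k + 5) ω - dens μ ℱ A (6 * k + 5 - 1) ω)| ≤
          C * (M : ℝ) ^ (3 / 4 : ℝ)) :=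
    ae_all_iff.2 fun m => ae_all_iff.2 fun r => both hA Q (U := Uh m r) (fun k => by
      simp only [hUh]
      by_cases h : k % m = r
      · simp only [h, if_true]
        exact (hh_meas hA k).add stronglyMeasurable_const
      · simp only [h, if_false]
        exact stronglyMeasurable_const) (fun k ω => by
      simp only [hUh]
      split_ifs
      · rcases hh_half (Tw01 A ω) k with h | h <;> rw [h] <;> norm_num
      · norm_num)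
  filter_upwards [hlam, hlim, hzero, br, bh] with ω hlam hlim hzero br bh
  have hl0 : ∀ n, 2 ≤ n → 0 ≤ lam n ω := fun n hn => (hlam n hn).1
  have hl1 : ∀ n, 2 ≤ n → lam (n + 1) ω ≤ lam n ω := fun n hn => (hlam n hn).2.1
  have hl2 : ∀ n, 2 ≤ n → (∀ p ∈ Q, ¬ p ∣ n + 1) → dens μ ℱ A n ω = lam n ω := fun n hn => (hlam n hn).2.2
  have hanti : ∀ m n, 2 ≤ m → m ≤ n → lam n ω ≤ lam m ω := by
    intro m n hm hmn
    induction n, hmn using Nat.le_induction with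
    | base => exact le_rfl
    | succ n hn ih => exact (hl1 n (by omega)).trans ih
  have hIn0 : ∀ n, (∃ p ∈ Q, p ∣ n) → In A n ω = 0 := by
    intro n hn
    unfold In
    rw [hcop n hn]
    simp
  have ws : ∀ U : ℕ → ℝ, (∀ k, 0 ≤ U k ∧ U k ≤ 1) → _ → _ → _ := fun U hU h1 h2 =>
    wsum (Q := Q) (I := fun n => In A n ω) (D := fun n => dens μ ℱ A n ω) (lam := fun n => lam n ω) (U := U)
      (fun n => ⟨In_nonneg n ω, In_le n ω⟩) hU hIn0 hzero hl0 hl1 hl2 h1 h2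
  have wr : ∀ m r : ℕ, ∃ C : ℝ, 0 ≤ C ∧ ∀ K : ℕ, |∑ k ∈ Finset.range K, Ur m r k ω *
      (In A (6 * k + 5) ω * In A (6 * k + 7) ω - aQ Q k * lam (6 * k + 4) ω ^ 2)| ≤ C * (K : ℝ) ^ (3 / 4 : ℝ) := fun m r =>
    ws (fun k => Ur m r k ω) (fun k => by simp only [hUr]; split_ifs <;> norm_num) (br m r).1 (br m r).2
  have wh : ∀ m r : ℕ, ∃ C : ℝ, 0 ≤ C ∧ ∀ K : ℕ, |∑ k ∈ Finset.range K, Uh m r k ω *
      (In A (6 * k + 5) ω * In A (6 * k + 7) ω - aQ Q k * lam (6 * k + 4) ω ^ 2)| ≤ C * (K : ℝ) ^ (3 / 4 : ℝ) := fun m r =>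
    ws (fun k => Uh m r k ω) (fun k => by
      simp only [hUh]
      split_ifs
      · rcases hh_half (Tw01 A ω) k with h | h <;> rw [h] <;> norm_num
      · norm_num) (bh m r).1 (bh m r).2
  refine ⟨JQ_odd hQ, aQ_per Q, aQ01 Q, fun k => hanti _ _ (by omega) (by omega), fun k => hl0 _ (by omega),
    lam_lim hQ hl0 hl1 hl2 hlim, Tw01 A ω, fun m r _ => ?_, fun m r _ => ?_⟩
  · obtain ⟨C, -, h⟩ := wr m r
    refine ⟨C, fun K => ?_⟩
    refine le_trans (le_of_eq ?_) (h K)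
    congr 1
    refine Finset.sum_congr rfl fun k _ => ?_
    simp only [hUr, Tw]
    split_ifs <;> ring
  · obtain ⟨C, hC, h⟩ := wr m r
    obtain ⟨C', hC', h'⟩ := wh m r
    refine ⟨C' + C, fun K => ?_⟩
    have e : ∑ k ∈ Finset.range K, (if k % m = r then hh (Tw A ω) k * (Tw A ω k - aQ Q k * lam (6 * k + 4) ω ^ 2) else 0) =
        ∑ k ∈ Finset.range K, Uh m r k ω * (In A (6 * k + 5) ω * In A (6 * k + 7) ω - aQ Q k * lam (6 * k + 4) ω ^ 2) -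
        (1 / 2) * ∑ k ∈ Finset.range K, Ur m r k ω * (In A (6 * k + 5) ω * In A (6 * k + 7) ω - aQ Q k * lam (6 * k + 4) ω ^ 2) := by
      rw [Finset.mul_sum, ← Finset.sum_sub_distrib]
      refine Finset.sum_congr rfl fun k _ => ?_
      simp only [hUr, hUh]
      by_cases hk : k % m = r
      · simp only [hk, if_true]
        show hh (Tw A ω) k * (In A (6 * k + 5) ω * In A (6 * k + 7) ω - aQ Q k * lam (6 * k + 4) ω ^ 2) = _
        ring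
      · simp only [hk, if_false]
        ring
    rw [e]
    have h1 := abs_le.1 (h K)
    have h2 := abs_le.1 (h' K)
    have h3 : 0 ≤ C * (K : ℝ) ^ (3 / 4 : ℝ) := by positivity
    rw [abs_le]
    constructor <;> nlinarith

end Pool.Agent.N893.TB
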