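import Mathlib
import Pool.Agent.N893.TB.P3
import Pool.Agent.N100.TB.BETA
import Pool.Agent.N99.TB.PER
import Pool.Agent.N727.TB.SUMLOG
import Pool.Agent.N946.TB.WSUM
import Pool.Agent.N942.TB.SHIFT
import Pool.Agent.N584.TB.COREN
import Pool.Agent.N26.TB.CORED
import Pool.Agent.N985.TB.FINAL
import Pool.Agent.N227.TB.COMBA
import Pool.Agent.N300.TB.COMBB

set_option autoImplicit false

/-! # The bias -/

open MeasureTheory Filter Set
open scoped ENNReal Topology

namespace Pool.Agent.N893.TB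

open Pool.Agent.R528.RM Pool.Agent.N893.SM

theorem coren : tCOREN := Pool.Agent.N584.TB.main Pool.Agent.N99.TB.PER.main Pool.Agent.N727.TB.main

theorem cored : tCORED := Pool.Agent.N26.TB.main Pool.Agent.N100.TB.BETA.main Pool.Agent.N99.TB.PER.main
  Pool.Agent.N727.TB.main Pool.Agent.N946.TB.main Pool.Agent.N942.TB.SHIFT.main

/-- infinitely many pairs -/
lemma inf_first {S : Set ℕ} {β : ℝ} (hβ : 0 < β)
    (h : Tendsto (fun K : ℕ => (∑ k ∈ Finset.range K, TT S k) * Real.log K ^ 2 / K) atTop (𝓝 β)) :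
    {p | First S p}.Infinite := by
  classical
  intro hfin
  obtain ⟨N, hN⟩ := hfin.bddAbove
  have h0 : ∀ k, N < k → TT S k = 0 := by
    intro k hk
    unfold TT
    rw [if_neg]
    intro hF
    have h1 : 6 * k + 5 ≤ N := hN hF
    omega
  have h01 : ∀ k, 0 ≤ TT S k ∧ TT S k ≤ 1 := by
    intro k
    unfold TT
    split_ifs <;> norm_num
  have hb : ∀ K : ℕ, ∑ k ∈ Finset.range K, TT S k ≤ N + 1 := by
    intro K
    calc ∑ k ∈ Finset.range K, TT S k ≤ ∑ k ∈ Finset.range K, (if k < N + 1 then (1 : ℝ) else 0) := by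
          refine Finset.sum_le_sum fun k _ => ?_
          split_ifs with hk
          · exact (h01 k).2
          · rw [h0 k (by omega)]
      _ = (((Finset.range K).filter fun k => k < N + 1).card : ℝ) := by
          rw [Finset.sum_boole]
      _ ≤ ((Finset.range (N + 1)).card : ℝ) := by
          refine Nat.cast_le.2 (Finset.card_le_card fun k hk => ?_)
          exact Finset.mem_range.2 (Finset.mem_filter.1 hk).2
      _ = N + 1 := by rw [Finset.card_range]; push_cast; rfl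
  have hz : Tendsto (fun K : ℕ => ((N : ℝ) + 1) * (Real.log K ^ 2 / K)) atTop (𝓝 (((N : ℝ) + 1) * 0)) := by
    refine Tendsto.const_mul _ ?_
    have h2 := (isLittleO_log_rpow_rpow_atTop (s := (1 : ℝ)) 2 one_pos).tendsto_div_nhds_zero.comp
      (tendsto_natCast_atTop_atTop (R := ℝ))
    refine h2.congr fun K => ?_
    simp only [Function.comp_apply, Real.rpow_one]
    norm_cast
  rw [mul_zero] at hz
  have hle : β ≤ 0 := by
    refine le_of_tendsto_of_tendsto h hz ?_
    filter_upwards [eventually_ge_atTop 1] with K hK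
    have hK1 : (0 : ℝ) < K := by exact_mod_cast hK
    rw [mul_div_assoc]
    exact mul_le_mul_of_nonneg_right (hb K) (by positivity)
  linarith

/-- the limits for one realisation -/
theorem limits {S : Set ℕ} (hS : ∀ n ∈ S, n.Coprime 6) {J : ℕ} {a g : ℕ → ℝ} {c : ℝ} (hc : 0 < c)
    (ha : 0 < (∑ k ∈ Finset.range J, a k) / (J : ℝ)) (hI : Inp J a g (TT S) c) :
    {p | First S p}.Infinite ∧
    Tendsto (fun x : ℕ => ((pi2next S x 1 3 : ℝ) / pi2 S x 1 - 1 / 2) * Real.log x ^ 2) atTop (𝓝 (c ^ 2 / 4)) ∧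
    Tendsto (fun x : ℕ => ((pi2next S x 3 1 : ℝ) / pi2 S x 3 - 1 / 2) * Real.log x ^ 2) atTop (𝓝 (c ^ 2 / 4)) ∧
    Tendsto (fun x : ℕ => ((pi2next S x 1 1 : ℝ) / pi2 S x 1 - 1 / 2) * Real.log x ^ 2) atTop (𝓝 (-(c ^ 2 / 4))) ∧
    Tendsto (fun x : ℕ => ((pi2next S x 3 3 : ℝ) / pi2 S x 3 - 1 / 2) * Real.log x ^ 2) atTop (𝓝 (-(c ^ 2 / 4))) := by
  obtain ⟨hN, C, hC⟩ := coren J a g (TT S) c hI
  have hD := cored J a g (TT S) c hI
  have hinf : {p | First S p}.Infinite := inf_first (by positivity) hN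
  have hA := Pool.Agent.N227.TB.main S hS hinf
  have hB := Pool.Agent.N300.TB.main S hS hinf
  have l13 : Tendsto (fun x : ℕ => ((pi2next S x 1 3 : ℝ) / pi2 S x 1 - 1 / 2) * Real.log x ^ 2) atTop (𝓝 (c ^ 2 / 4)) :=
    Pool.Agent.N985.TB.FINAL.main (TT S) c _ C hc ha hI.T01 hN hD hC (fun x => (pi2next S x 1 3 : ℝ)) (fun x => (pi2 S x 1 : ℝ))
      (fun x => (hB x).1) (fun x => by
        show |(pi2 S x 1 : ℝ) - _| ≤ _
        rw [(hA x).1, ← abs_of_pos (show (0 : ℝ) < 2 by norm_num), ← abs_div, abs_of_pos (show (0 : ℝ) < 2 by norm_num)]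
        apply le_of_eq
        congr 1
        ring)
  have l31 : Tendsto (fun x : ℕ => ((pi2next S x 3 1 : ℝ) / pi2 S x 3 - 1 / 2) * Real.log x ^ 2) atTop (𝓝 (c ^ 2 / 4)) :=
    Pool.Agent.N985.TB.FINAL.main (TT S) c _ C hc ha hI.T01 hN hD hC (fun x => (pi2next S x 3 1 : ℝ)) (fun x => (pi2 S x 3 : ℝ))
      (fun x => (hB x).2) (fun x => by
        show |(pi2 S x 3 : ℝ) - _| ≤ _
        rw [(hA x).2.1, ← abs_of_pos (show (0 : ℝ) < 2 by norm_num), ← abs_div, abs_of_pos (show (0 : ℝ) < 2 by norm_num),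
          ← abs_neg]
        apply le_of_eq
        congr 1
        ring)
  have hlogt : Tendsto (fun x : ℕ => Real.log (x : ℝ) ^ 2) atTop atTop :=
    (tendsto_pow_atTop two_ne_zero).comp (Real.tendsto_log_atTop.comp tendsto_natCast_atTop_atTop)
  have same : ∀ P P' R : ℕ → ℕ, (∀ x, P x + P' x = R x) →
      Tendsto (fun x : ℕ => ((P' x : ℝ) / R x - 1 / 2) * Real.log x ^ 2) atTop (𝓝 (c ^ 2 / 4)) →
      Tendsto (fun x : ℕ => ((P x : ℝ) / R x - 1 / 2) * Real.log x ^ 2) atTop (𝓝 (-(c ^ 2 / 4))) := by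
    intro P P' R hPR h
    refine h.neg.congr' ?_
    filter_upwards [h.eventually (eventually_gt_nhds (show (-1 : ℝ) < c ^ 2 / 4 by nlinarith [sq_nonneg c])),
      hlogt.eventually_gt_atTop 2] with x hx hx2
    have hR : (R x : ℝ) ≠ 0 := by
      intro h0
      rw [h0, div_zero] at hx
      linarith
    have e : (P x : ℝ) = R x - P' x := by
      have := hPR x
      rw [← this]
      push_cast
      ring
    rw [e]
    field_simp
    ring
  exact ⟨hinf, l13, l31, same (fun x => pi2next S x 1 1) (fun x => pi2next S x 1 3) (fun x => pi2 S x 1) (fun x => (hA x).2.2.1) l13,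
    same (fun x => pi2next S x 3 3) (fun x => pi2next S x 3 1) (fun x => pi2 S x 3)
      (fun x => by rw [add_comm]; exact (hA x).2.2.2) l31⟩

end Pool.Agent.N893.TB
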